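import Pool.Agent.Helper743.BAProof3

set_option autoImplicit false

/-! Problem MP_5205a5_lc, question Q1: a relation on a computable Boolean algebra whose degree
spectrum has exactly two elements. -/

namespace Pool.Agent.Results.MP_5205a5_lc.TwoElementSpectrum

open Pool.Agent.Helper743 Nat.Partrec

/-- There are a Boolean algebra with a computable copy and a binary relation on it whose degree
spectrum consists of exactly two Turing degrees. -/
theorem result : ∃ (α : Type) (_ : BooleanAlgebra α), Nonempty (ComputableCopy α) ∧
    ∃ R : α → α → Prop, ∃ a b : TuringDegree, a ≠ b ∧ degreeSpectrum R = {a, b} := by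
  classical
  let W : ℕ → ℕ → ℕ := fun i => chi (fun n => (Code.eval (Denumerable.ofNat Code i) n).Dom)
  obtain ⟨G, hG1, hG2⟩ := dichotomy K K_not_computable W
  have hdeg : ∀ f g : ℕ → ℕ, TR f g → TR g f →
      (toAntisymmetrization TuringReducible (fun z => Part.some (f z)) : TuringDegree) =
        toAntisymmetrization TuringReducible (fun z => Part.some (g z)) := by
    intro f g h1 h2
    exact Quotient.sound (s := AntisymmRel.setoid (ℕ →. ℕ) TuringReducible)
      ⟨TR_iff.1 h1, TR_iff.1 h2⟩
  refine ⟨FCA, inferInstance, ⟨mkCopy good_le⟩, RG G,
    toAntisymmetrization TuringReducible (fun z => Part.some (G z)),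
    toAntisymmetrization TuringReducible (fun z => Part.some (join G K z)), ?_, ?_⟩
  · intro h
    have h1 : AntisymmRel TuringReducible (fun z => Part.some (G z))
        (fun z => Part.some (join G K z)) :=
      Quotient.exact (s := AntisymmRel.setoid (ℕ →. ℕ) TuringReducible) h
    apply hG1
    exact (TR_join_right G K).trans (TR_iff.2 h1.2)
  · ext d
    constructor
    · rintro ⟨c, hd⟩
      obtain ⟨code, hcode⟩ := re_code (nonatom_re c)
      have hW : ∀ n, W (Encodable.encode code) n = 1 - At c n := by
        intro n
        show chi _ n = _
        unfold chi At
        rw [Denumerable.ofNat_encode]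
        by_cases hat : n ∈ c.dom ∧ IsAtom (cv c n)
        · rw [if_pos hat, if_neg (fun h => ((hcode n).2 h) hat)]
        · rw [if_neg hat, if_pos ((hcode n).1 hat)]
      have hAt01 : ∀ n, At c n ≤ 1 := by
        intro n; unfold At; split <;> omega
      have hsub : Computable (fun n : ℕ => 1 - n) :=
        (Primrec.nat_sub.comp (Primrec.const 1) Primrec.id).to_comp
      have hW1 : TR (W (Encodable.encode code)) (At c) := by
        have h := (Computable.recT (O := {(At c : ℕ →. ℕ)}) hsub).comp (TR.refl (At c))
        have e : (fun n => 1 - At c n) = W (Encodable.encode code) := by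
          funext n; rw [hW]
        rw [e] at h
        exact h
      have hW2 : TR (At c) (W (Encodable.encode code)) := by
        have h := (Computable.recT (O := {(W (Encodable.encode code) : ℕ →. ℕ)}) hsub).comp
          (TR.refl (W (Encodable.encode code)))
        have e : (fun n => 1 - W (Encodable.encode code) n) = At c := by
          funext n
          have := hAt01 n
          rw [hW]; omega
        rw [e] at h
        exact h
      rcases hG2 (Encodable.encode code) with h | h
      · left
        rw [hd]
        apply hdeg
        · exact (image_TR G c).trans (TR_join (TR.refl G) (hW2.trans h))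
        · exact G_TR_image G c
      · right
        rw [Set.mem_singleton_iff, hd]
        apply hdeg
        · refine (image_TR G c).trans (TR_join (TR_join_left G K) ?_)
          refine hW2.trans (TR.trans ?_ (TR_join_right G K))
          exact chi_TR_K (Partrec.dom_re (Code.eval_part.comp (Computable.const _) Computable.id))
        · refine TR_join (G_TR_image G c) ?_
          refine h.trans ?_
          exact TR_join (G_TR_image G c) (hW1.trans (At_TR_image G c))
    · rintro (hd | hd)
      · refine ⟨mkCopy good_le, ?_⟩
        rw [hd]
        apply hdeg
        · exact G_TR_image G _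
        · exact (image_TR G _).trans (TR_join (TR.refl G) (TR_of_computable At1_computable))
      · rw [Set.mem_singleton_iff] at hd
        refine ⟨mkCopy good_le', ?_⟩
        rw [hd]
        apply hdeg
        · exact TR_join (G_TR_image G _) (K_TR_At2.trans (At_TR_image G _))
        · refine (image_TR G _).trans (TR_join (TR_join_left G K) ?_)
          -- the atoms are computable from `K`
          obtain ⟨code, hcode⟩ := re_code (nonatom_re (mkCopy good_le'))
          have h1 : TR (chi (fun n => ¬ (n ∈ (mkCopy good_le').dom ∧
              IsAtom (cv (mkCopy good_le') n)))) K := chi_TR_K (nonatom_re (mkCopy good_le'))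
          refine TR.trans ?_ (h1.trans (TR_join_right G K))
          have hsub : Computable (fun n : ℕ => 1 - n) :=
            (Primrec.nat_sub.comp (Primrec.const 1) Primrec.id).to_comp
          have h := (Computable.recT (O := {(chi (fun n => ¬ (n ∈ (mkCopy good_le').dom ∧
              IsAtom (cv (mkCopy good_le') n))) : ℕ →. ℕ)}) hsub).comp (TR.refl _)
          have e : (fun n => 1 - chi (fun n => ¬ (n ∈ (mkCopy good_le').dom ∧
              IsAtom (cv (mkCopy good_le') n))) n) = At (mkCopy good_le') := by
            funext n
            unfold chi At
            by_cases hat : n ∈ (mkCopy good_le').dom ∧ IsAtom (cv (mkCopy good_le') n)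
            · rw [if_pos hat, if_neg (fun h => h hat)]
            · rw [if_neg hat, if_pos hat]
          rw [e] at h
          exact h

end Pool.Agent.Results.MP_5205a5_lc.TwoElementSpectrum
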